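import Pool.Agent.LF53.Flag
import Pool.Agent.ZPC2.Final

/-!
From linked flags to the elementary type conjecture for `-1 = 1` (note 3250 of helper80).
-/

set_option autoImplicit false
set_option linter.unusedSectionVars false

namespace Pool.Agent.LF53

open Pool.Agent.ZPC2 QS Pool.Agent.AST

theorem toBD_XL (S : QStruct) : XL (toBD S) := by
  rintro c x x' ⟨p, h1⟩ ⟨p', h2⟩
  obtain ⟨y, h3, h4⟩ := S.qs4 (Additive.toMul x) (Additive.toMul p) (Additive.toMul x')
    (Additive.toMul p') (h1.trans h2.symm)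
  exact ⟨Additive.ofMul y, h3.symm.trans h1, h4.symm.trans h2⟩

theorem toBD_YL (S : QStruct) : YL (toBD S) ⊤ := by
  rintro c x x' ⟨p, -, h1⟩ ⟨p', -, h2⟩
  obtain ⟨y, h3, h4⟩ := toBD_XL S c x x' ⟨p, by rw [bd_symm]; exact h1⟩
    ⟨p', by rw [bd_symm]; exact h2⟩
  exact ⟨y, trivial, by rw [bd_symm]; exact h3, by rw [bd_symm]; exact h4⟩

/-- hereditary linkage of all structures with `-1 = 1` gives ETC for `-1 = 1` -/
theorem etc_of_hl (h : ∀ S : QStruct, Finite S.G → S.neg = 1 → HL (toBD S) ⊤) :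
    ∀ S : QStruct, Finite S.G → S.neg = 1 → ElemType S :=
  etc_of_linked fun S hf hneg c => (h S hf hneg).fw c

/-- one linked flag in every structure with `-1 = 1` gives ETC for `-1 = 1` -/
theorem etc_of_flag (h : ∀ S : QStruct, Finite S.G → S.neg = 1 → Flag (toBD S) ⊤) :
    ∀ S : QStruct, Finite S.G → S.neg = 1 → ElemType S :=
  etc_of_hl fun S hf hneg => by
    have : Finite (Additive S.G) := hf
    exact (h S hf hneg).hl

/-- LAW FLAG gives ETC for `-1 = 1` -/
theorem etc_of_lawFlag (hF : LawFlag) :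
    ∀ S : QStruct, Finite S.G → S.neg = 1 → ElemType S :=
  etc_of_hl fun S hf _ => by
    have : Finite (Additive S.G) := hf
    exact hl_of_lawFlag hF _ _ _ _ (toBD S) rfl (toBD_XL S) (toBD_YL S)

end Pool.Agent.LF53
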