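import Pool.Agent.LF53.Main

/-!
Linked flags and LAW FLAG (note 3250 of helper80): if every finite two sided linked map has a
linked subspace of index two in `V`, then all finite two sided linked maps are hereditarily linked.
-/

set_option autoImplicit false
set_option linter.unusedSectionVars false

namespace Pool.Agent.LF53

open Pool.Agent.ZPC2

variable {V W Q : Type} [AddCommGroup V] [Module (ZMod 2) V] [AddCommGroup W]
  [Module (ZMod 2) W] {D : BD V W Q}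

/-- the elements of `V` are linked by the elements of `W` -/
def XL (D : BD V W Q) : Prop :=
  ∀ c x x', (∃ p, D.q x p = c) → (∃ p, D.q x' p = c) → ∃ p, D.q x p = c ∧ D.q x' p = c

/-- restriction of the map to a subspace of `V` -/
def res (D : BD V W Q) (A : Submodule (ZMod 2) V) : BD A W Q where
  q v w := D.q v.1 w
  z := D.z
  qr v w w1 := D.qr v.1 w w1
  ql v v1 w := D.ql v.1 v1.1 w

theorem XL.res (h : XL D) (A : Submodule (ZMod 2) V) : XL (res D A) :=
  fun c x x' h1 h3 => h c x.1 x'.1 h1 h3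

theorem YL_res {A : Submodule (ZMod 2) V} : YL (res D A) ⊤ ↔ YL D A := by
  constructor
  · rintro h c p p' ⟨x, hx, h1⟩ ⟨y, hy, h2⟩
    obtain ⟨v, -, h3, h4⟩ := h c p p' ⟨⟨x, hx⟩, trivial, h1⟩ ⟨⟨y, hy⟩, trivial, h2⟩
    exact ⟨v.1, v.2, h3, h4⟩
  · rintro h c p p' ⟨x, -, h1⟩ ⟨y, -, h2⟩
    obtain ⟨v, hv, h3, h4⟩ := h c p p' ⟨x.1, x.2, h1⟩ ⟨y.1, y.2, h2⟩
    exact ⟨⟨v, hv⟩, trivial, h3, h4⟩

theorem HL_res {A : Submodule (ZMod 2) V} (h : HL (res D A) ⊤) : HL D A := by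
  rintro S c p p' ⟨x, ⟨hx, hx'⟩, h1⟩ ⟨y, ⟨hy, hy'⟩, h2⟩
  obtain ⟨v, ⟨-, hv⟩, h3, h4⟩ := h S c p p' ⟨⟨x, hx⟩, ⟨trivial, hx'⟩, h1⟩
    ⟨⟨y, hy⟩, ⟨trivial, hy'⟩, h2⟩
  exact ⟨v.1, ⟨v.2, hv⟩, h3, h4⟩

/-- a linked flag -/
inductive Flag (D : BD V W Q) : Submodule (ZMod 2) V → Prop
  | bot : Flag D ⊥
  | step {B A : Submodule (ZMod 2) V} : Flag D B → Two B A → YL D A → Flag D A

theorem Flag.hl [Finite W] {A : Submodule (ZMod 2) V} (h : Flag D A) : HL D A := by
  induction h with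
  | bot => exact HL_bot
  | step _ h2 hA ih => exact LF h2 hA ih

/-- LAW FLAG for the class `P` of maps -/
def LawFlag : Prop := ∀ (V W Q : Type) [AddCommGroup V] [Module (ZMod 2) V] [AddCommGroup W]
  [Module (ZMod 2) W] [Finite V] [Finite W] (D : BD V W Q), XL D → YL D ⊤ → (∃ v : V, v ≠ 0) →
  ∃ B : Submodule (ZMod 2) V, B ≠ ⊤ ∧ Two B ⊤ ∧ YL D B

/-- LAW FLAG gives hereditary linkage -/
theorem hl_of_lawFlag (hF : LawFlag) : ∀ (n : ℕ) (V W Q : Type) [AddCommGroup V]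
    [Module (ZMod 2) V] [AddCommGroup W] [Module (ZMod 2) W] [Finite V] [Finite W]
    (D : BD V W Q), Nat.card V = n → XL D → YL D ⊤ → HL D ⊤ := by
  intro n
  induction n using Nat.strong_induction_on with
  | _ n ih =>
    intro V W Q _ _ _ _ _ _ D hn hX hY
    by_cases h0 : ∃ v : V, v ≠ 0
    · obtain ⟨B, hB, h2, hBY⟩ := hF V W Q D hX hY h0
      have hlt : Nat.card B < n := by
        rw [← hn]
        have h3 : (B : Set V).ncard < (Set.univ : Set V).ncard := by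
          refine Set.ncard_lt_ncard ?_ Set.finite_univ
          rw [Set.ssubset_univ_iff]
          intro h
          exact hB (SetLike.coe_injective (by rw [h]; rfl))
        rw [Set.ncard_univ] at h3
        exact h3
      have h4 := ih _ hlt B W Q (res D B) rfl (hX.res B) (YL_res.2 hBY)
      exact LF h2 hY (HL_res h4)
    · push Not at h0
      have e : (⊤ : Submodule (ZMod 2) V) = ⊥ := by
        rw [Submodule.eq_bot_iff]
        exact fun v _ => h0 v
      rw [e]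
      exact HL_bot

/-- hereditary linkage in the form of `ZPC2` -/
theorem HL.fw (h : HL D ⊤) (c : Q) : FW D c := by
  rintro K w w1 ⟨v, hv, h1⟩ ⟨v', hv', h2⟩
  obtain ⟨x, ⟨-, hx⟩, h3, h4⟩ := h (K : Set W) c w w1 ⟨v, ⟨trivial, hv⟩, h1⟩
    ⟨v', ⟨trivial, hv'⟩, h2⟩
  exact ⟨x, hx, h3, h4⟩

end Pool.Agent.LF53
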