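import Pool.Agent.ZPC2.Defs

/-!
Theorem LF (note 3250 of helper80), set valued on the interface of `ZPC2/Defs`: if the elements of
`W` are linked by `V` and a subspace `B` of index two is hereditarily linked, then `V` is
hereditarily linked. No linkage of the elements of `V` by `W` is used here.
-/

set_option autoImplicit false
set_option linter.unusedSectionVars false

namespace Pool.Agent.LF53

open Pool.Agent.ZPC2

variable {V W Q : Type} [AddCommGroup V] [Module (ZMod 2) V] [AddCommGroup W]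
  [Module (ZMod 2) W] (D : BD V W Q)

/-- the elements of `W` are linked by the elements of `A` -/
def YL (A : Submodule (ZMod 2) V) : Prop :=
  ∀ c p p', (∃ x ∈ A, D.q x p = c) → (∃ x ∈ A, D.q x p' = c) → ∃ x ∈ A, D.q x p = c ∧ D.q x p' = c

/-- flatness of planes for `A` -/
def FL (A : Submodule (ZMod 2) V) : Prop :=
  ∀ c z u b, (∃ x ∈ A, D.q x z = c) → (∃ x ∈ A, D.q x (z + u) = c) →
    (∃ x ∈ A, D.q x (z + b) = c) → (∃ x ∈ A, D.q x (z + (u + b)) = c) →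
    ∃ x ∈ A, D.q x z = c ∧ D.q x u = D.z ∧ D.q x b = D.z

/-- index at most two -/
def Two (B A : Submodule (ZMod 2) V) : Prop :=
  B ≤ A ∧ ∀ a ∈ A, ∀ b ∈ A, a ∉ B → b ∉ B → a + b ∈ B

/-- no bad plane -/
def NB (B A : Submodule (ZMod 2) V) : Prop :=
  ∀ p p', (∃ a ∈ A, a ∉ B ∧ D.q a p = D.z) → (∃ a ∈ A, a ∉ B ∧ D.q a p' = D.z) →
    (∃ a ∈ A, a ∉ B ∧ D.q a (p + p') = D.z) →
    ∃ a ∈ A, a ∉ B ∧ D.q a p = D.z ∧ D.q a p' = D.z

variable {D} {A B : Submodule (ZMod 2) V}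

theorem notin_add {a b : V} (ha : a ∉ B) (hb : b ∈ B) : a + b ∉ B := by
  intro h
  apply ha
  have := B.add_mem h hb
  rwa [aa] at this

/-- Lemma 1 of the note, first half -/
theorem nb_of_YL (h2 : Two B A) (hB : YL D B) : NB D B A := by
  rintro p p' ⟨a, ha, haB, h1⟩ ⟨b, hb, hbB, h3⟩ ⟨x, hx, hxB, h4⟩
  have h5 : D.q x p = D.q x p' := (D.qr x p p').2 h4
  obtain ⟨y, hy, h6, h7⟩ := hB (D.q x p) p p'
    ⟨x + a, h2.2 x hx a ha hxB haB, BD.l0 rfl h1⟩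
    ⟨x + b, h2.2 x hx b hb hxB hbB, BD.l0 h5.symm h3⟩
  exact ⟨x + y, A.add_mem hx (h2.1 hy), notin_add hxB hy, BD.lc rfl h6, BD.lc h5.symm h7⟩

/-- Lemma 1 of the note, second half -/
theorem YL_of_nb (h2 : Two B A) (hA : YL D A) (hN : NB D B A) : YL D B := by
  rintro c p p' ⟨x, hx, h1⟩ ⟨x', hx', h3⟩
  obtain ⟨y, hy, h4, h5⟩ := hA c p p' ⟨x, h2.1 hx, h1⟩ ⟨x', h2.1 hx', h3⟩
  by_cases hyB : y ∈ B
  · exact ⟨y, hyB, h4, h5⟩
  obtain ⟨a, ha, haB, h6, h7⟩ := hN p p'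
    ⟨y + x, A.add_mem hy (h2.1 hx), notin_add hyB hx, BD.lc h4 h1⟩
    ⟨y + x', A.add_mem hy (h2.1 hx'), notin_add hyB hx', BD.lc h5 h3⟩
    ⟨y, hy, hyB, BD.rc h4 h5⟩
  exact ⟨y + a, h2.2 y hy a ha hyB haB, BD.l0 h4 h6, BD.l0 h5 h7⟩

/-- Lemma 2 of the note, the case where `z` has no slot in `B` -/
theorem flat_aux (h2 : Two B A) (hA : YL D A) (hB : YL D B) (hF : FL D B) {c : Q} {z u b : W}
    (h1 : ∃ x ∈ A, D.q x z = c) (h3 : ∃ x ∈ A, D.q x (z + u) = c)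
    (h4 : ∃ x ∈ A, D.q x (z + b) = c) (h5 : ∃ x ∈ A, D.q x (z + (u + b)) = c)
    (hz : ∀ x ∈ B, D.q x z ≠ c) :
    ∃ x ∈ A, D.q x z = c ∧ D.q x u = D.z ∧ D.q x b = D.z := by
  obtain ⟨xu, hu, u1, u2⟩ := hA c _ _ h1 h3
  obtain ⟨xb, hb, b1, b2⟩ := hA c _ _ h1 h4
  obtain ⟨xs, hs, s1, s2⟩ := hA c _ _ h1 h5
  have u3 : D.q xu u = D.z := BD.rd u2 u1
  have b3 : D.q xb b = D.z := BD.rd b2 b1
  have s3 : D.q xs (u + b) = D.z := BD.rd s2 s1
  have nu : xu ∉ B := fun h => hz xu h u1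
  have nb : xb ∉ B := fun h => hz xb h b1
  have ns : xs ∉ B := fun h => hz xs h s1
  obtain ⟨v, hv, nv, v1, v2⟩ := nb_of_YL h2 hB u b ⟨xu, hu, nu, u3⟩ ⟨xb, hb, nb, b3⟩
    ⟨xs, hs, ns, s3⟩
  have e1 : D.q (xb + v) z = D.q (xu + v) z := by
    rw [D.ql]
    have : xb + v + (xu + v) = xb + xu := by
      have : xb + v + (xu + v) = xb + xu + v + v := by abel
      rw [this, aa]
    rw [this]
    exact BD.lc b1 u1
  have e2 : D.q (xs + v) z = D.q (xu + v) z := by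
    rw [D.ql]
    have : xs + v + (xu + v) = xs + xu := by
      have : xs + v + (xu + v) = xs + xu + v + v := by abel
      rw [this, aa]
    rw [this]
    exact BD.lc s1 u1
  obtain ⟨x, hx, x1, x2, x3⟩ := hF (D.q (xu + v) z) z u b
    ⟨xu + v, h2.2 xu hu v hv nu nv, rfl⟩
    ⟨xu + v, h2.2 xu hu v hv nu nv, BD.r0 rfl (BD.l0 u3 v1)⟩
    ⟨xb + v, h2.2 xb hb v hv nb nv, BD.r0 e1 (BD.l0 b3 v2)⟩
    ⟨xs + v, h2.2 xs hs v hv ns nv, BD.r0 e2 (BD.l0 s3 (BD.r0 v1 v2))⟩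
  refine ⟨x + v, A.add_mem (h2.1 hx) hv, ?_, BD.l0 x2 v1, BD.l0 x3 v2⟩
  have e3 : D.q (x + v) z = D.q xu z := by
    rw [D.ql]
    have : x + v + xu = x + (xu + v) := by abel
    rw [this, ← D.ql]
    exact x1
  rw [e3, u1]

/-- Lemma 2 of the note -/
theorem flat_of (h2 : Two B A) (hA : YL D A) (hB : YL D B) (hF : FL D B) : FL D A := by
  intro c z u b h1 h3 h4 h5
  by_cases k1 : ∀ x ∈ B, D.q x z ≠ c
  · exact flat_aux h2 hA hB hF h1 h3 h4 h5 k1
  by_cases k2 : ∀ x ∈ B, D.q x (z + u) ≠ c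
  · obtain ⟨x, hx, x1, x2, x3⟩ := flat_aux h2 hA hB hF (z := z + u) (u := u) (b := b) h3
      (by rwa [aa]) (by rwa [add_assoc]) (by
        have : z + u + (u + b) = z + b + u + u := by abel
        rwa [this, aa]) k2
    exact ⟨x, hx, BD.re x1 x2, x2, x3⟩
  by_cases k3 : ∀ x ∈ B, D.q x (z + b) ≠ c
  · obtain ⟨x, hx, x1, x2, x3⟩ := flat_aux h2 hA hB hF (z := z + b) (u := u) (b := b) h4
      (by
        have : z + b + u = z + (u + b) := by abel
        rwa [this]) (by rwa [aa]) (by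
        have : z + b + (u + b) = z + u + b + b := by abel
        rwa [this, aa]) k3
    exact ⟨x, hx, BD.re x1 x3, x2, x3⟩
  by_cases k4 : ∀ x ∈ B, D.q x (z + (u + b)) ≠ c
  · obtain ⟨x, hx, x1, x2, x3⟩ := flat_aux h2 hA hB hF (z := z + (u + b)) (u := u) (b := b) h5
      (by
        have : z + (u + b) + u = z + b + u + u := by abel
        rwa [this, aa]) (by
        have : z + (u + b) + b = z + u + b + b := by abel
        rwa [this, aa]) (by rwa [aa]) k4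
    exact ⟨x, hx, BD.re x1 (BD.r0 x2 x3), x2, x3⟩
  push Not at k1 k2 k3 k4
  obtain ⟨x, hx, h⟩ := hF c z u b k1 k2 k3 k4
  exact ⟨x, h2.1 hx, h⟩

/-- the annihilator of a set -/
def An (D : BD V W Q) (S : Set W) : Submodule (ZMod 2) V where
  carrier := {v | ∀ w ∈ S, D.q v w = D.z}
  add_mem' := fun {a b} ha hb w hw => BD.l0 (ha w hw) (hb w hw)
  zero_mem' := fun w _ => D.zq w
  smul_mem' := fun r a ha w hw => by
    rcases smul_cases r a with h | h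
    · rw [h]
      exact D.zq w
    · rw [h]
      exact ha w hw

theorem mem_An {S : Set W} {v : V} : v ∈ An D S ↔ ∀ w ∈ S, D.q v w = D.z := Iff.rfl

/-- hereditary linkage -/
def HL (D : BD V W Q) (A : Submodule (ZMod 2) V) : Prop := ∀ S : Set W, YL D (A ⊓ An D S)

theorem An_insert {S : Set W} {u : W} {v : V} :
    v ∈ An D (insert u S) ↔ v ∈ An D S ∧ D.q v u = D.z := by
  constructor
  · intro h
    exact ⟨fun w hw => h w (Set.mem_insert_of_mem _ hw), h u (Set.mem_insert _ _)⟩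
  · rintro ⟨h1, h2⟩ w hw
    rcases hw with rfl | hw
    · exact h2
    · exact h1 w hw

theorem HL.yl (h : HL D A) : YL D A := by
  have := h ∅
  have e : A ⊓ An D ∅ = A := by
    apply le_antisymm inf_le_left
    exact fun x hx => ⟨hx, fun w hw => absurd hw (Set.notMem_empty w)⟩
  rwa [e] at this

theorem HL.inf (h : HL D A) (S : Set W) : HL D (A ⊓ An D S) := by
  intro T
  have e : A ⊓ An D S ⊓ An D T = A ⊓ An D (S ∪ T) := by
    apply le_antisymm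
    · rintro x ⟨⟨h1, h2⟩, h3⟩
      exact ⟨h1, fun w hw => hw.elim (h2 w) (h3 w)⟩
    · rintro x ⟨h1, h2⟩
      exact ⟨⟨h1, fun w hw => h2 w (Or.inl hw)⟩, fun w hw => h2 w (Or.inr hw)⟩
  rw [e]
  exact h _

/-- flatness gives linkage of the annihilators of the elements -/
theorem FL.yl (h : FL D A) (u : W) : YL D (A ⊓ An D {u}) := by
  rintro c p p' ⟨x, ⟨hx, x1⟩, x2⟩ ⟨y, ⟨hy, y1⟩, y2⟩
  have x3 : D.q x u = D.z := x1 u rfl
  have y3 : D.q y u = D.z := y1 u rfl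
  obtain ⟨v, hv, v1, v2, v3⟩ := h c p u (p + p') ⟨x, hx, x2⟩ ⟨x, hx, BD.r0 x2 x3⟩
    ⟨y, hy, by rwa [ab]⟩ ⟨y, hy, by
      have : p + (u + (p + p')) = p' + u + p + p := by abel
      rw [this, aa]
      exact BD.r0 y2 y3⟩
  refine ⟨v, ⟨hv, ?_⟩, v1, ?_⟩
  · intro w hw
    rw [Set.mem_singleton_iff.1 hw]
    exact v2
  · have := BD.r0 v1 v3
    rwa [ab] at this

/-- hereditary linkage gives flatness -/
theorem HL.fl (h : HL D A) : FL D A := by
  intro c z u b h1 h3 h4 h5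
  have hA := h.yl
  obtain ⟨x, hx, x1, x2⟩ := hA c _ _ h1 h3
  obtain ⟨y, hy, y1, y2⟩ := hA c _ _ h4 h5
  have y3 : D.q y u = D.z := by
    have e : z + (u + b) = z + b + u := by abel
    rw [e] at y2
    exact BD.rd y2 y1
  obtain ⟨v, ⟨hv, hv'⟩, v1, v2⟩ := h {u} c z (z + b)
    ⟨x, ⟨hx, fun w hw => by rw [Set.mem_singleton_iff.1 hw]; exact BD.rd x2 x1⟩, x1⟩
    ⟨y, ⟨hy, fun w hw => by rw [Set.mem_singleton_iff.1 hw]; exact y3⟩, y1⟩
  exact ⟨v, hv, v1, hv' u rfl, BD.rd v2 v1⟩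

theorem Two.inf (h : Two B A) (C : Submodule (ZMod 2) V) : Two (B ⊓ C) (A ⊓ C) := by
  refine ⟨inf_le_inf_right _ h.1, ?_⟩
  rintro a ⟨ha, ha'⟩ b ⟨hb, hb'⟩ na nb
  exact ⟨h.2 a ha b hb (fun t => na ⟨t, ha'⟩) (fun t => nb ⟨t, hb'⟩), C.add_mem ha' hb'⟩

/-- **Theorem LF** of note 3250 -/
theorem LF [Finite W] (h2 : Two B A) (hA : YL D A) (hB : HL D B) : HL D A := by
  classical
  have key : ∀ s : Finset W, YL D (A ⊓ An D (s : Set W)) := by
    intro s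
    induction s using Finset.induction_on with
    | empty =>
      have e : A ⊓ An D ((∅ : Finset W) : Set W) = A := by
        apply le_antisymm inf_le_left
        exact fun x hx => ⟨hx, fun w hw => by simp at hw⟩
      rw [e]
      exact hA
    | insert u s _ ih =>
      have h3 := flat_of (h2.inf (An D (s : Set W))) ih (hB s) (hB.inf s).fl
      have h4 := h3.yl u
      have e : A ⊓ An D (s : Set W) ⊓ An D {u} = A ⊓ An D ((insert u s : Finset W) : Set W) := by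
        rw [Finset.coe_insert]
        apply le_antisymm
        · rintro x ⟨⟨k1, k2⟩, k3⟩
          exact ⟨k1, An_insert.2 ⟨k2, k3 u rfl⟩⟩
        · rintro x ⟨k1, k2⟩
          have k3 := An_insert.1 k2
          exact ⟨⟨k1, k3.1⟩, fun w hw => by rw [Set.mem_singleton_iff.1 hw]; exact k3.2⟩
      rw [← e]
      exact h4
  intro S
  have := key S.toFinite.toFinset
  rwa [Set.Finite.coe_toFinset] at this

theorem HL_bot : HL D (⊥ : Submodule (ZMod 2) V) := by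
  rintro S c p p' ⟨x, hx, h1⟩ ⟨y, hy, h2⟩
  have hx0 : x = 0 := (Submodule.mem_bot _).1 hx.1
  have hy0 : y = 0 := (Submodule.mem_bot _).1 hy.1
  subst hx0 hy0
  exact ⟨0, hx, h1, h2⟩

end Pool.Agent.LF53
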